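import Pool.Agent.V8H39.BSS.Point

/-!
# The sets of the real algebraic numbers of degree exactly `d` and of degree at most `d`

For every `d ≥ 3` no BSS machine with an oracle for the real algebraic numbers of degree exactly
`d` decides the set of the real algebraic numbers of degree at most `d`.

Idea: let `p` be a prime divisor of `d - 1`. A machine with oracle `𝔸₌d` rejects a number `x₀` that
is transcendental over its constants. Near `x₀` the computation is the same unless an oracle
question is answered with yes, so the machine is wrong at a suitable algebraic number `x = θ + u`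
near `x₀`, where `θ` is the real `p`-th root of a prime number and `u` is rational: by Galois theory
finitely many given nonconstant rational functions can take at such an `x` no value of degree `d`,
if the prime number and `u` are chosen well.
-/

set_option autoImplicit false

namespace Pool.Agent.Results.MP_8762dc_lc.ExactDegreeTooWeak

open Polynomial Filter Topology

/-- The arithmetic operations. -/
inductive Op : Type
  | add | sub | mul | div

/-- The result of an arithmetic operation (division by zero gives zero). -/
noncomputable def Op.apply : Op → ℝ → ℝ → ℝ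
  | add, x, y => x + y
  | sub, x, y => x - y
  | mul, x, y => x * y
  | div, x, y => x / y

/-- The instructions of an oracle BSS machine with the nodes `0, …, n`. The memory is a tape which
is infinite in both directions, with a real number in each cell; `i`, `j`, `k` are addresses of
cells relative to the position of the head. -/
inductive Instr (n : ℕ) : Type
  /-- write the real number `c` into cell `i` and go to node `m` -/
  | const (i : ℤ) (c : ℝ) (m : Fin (n + 1))
  /-- copy the content of cell `j` into cell `i` and go to node `m` -/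
  | copy (i j : ℤ) (m : Fin (n + 1))
  /-- apply `o` to the contents of the cells `j` and `k`, write the result into cell `i` and go to
  node `m` -/
  | compute (o : Op) (i j k : ℤ) (m : Fin (n + 1))
  /-- move the head by `s` cells and go to node `m` -/
  | move (s : ℤ) (m : Fin (n + 1))
  /-- go to node `yes` if the contents of the cells `i` and `j` are equal, otherwise to `no` -/
  | testEq (i j : ℤ) (yes no : Fin (n + 1))
  /-- go to node `yes` if the content of cell `i` is less than that of `j`, otherwise to `no` -/
  | testLt (i j : ℤ) (yes no : Fin (n + 1))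
  /-- go to node `yes` if the content of cell `i` belongs to the oracle, otherwise to `no` -/
  | query (i : ℤ) (yes no : Fin (n + 1))
  /-- stop, and accept if `b` is true, reject if `b` is false -/
  | halt (b : Bool)

/-- An oracle BSS machine (over the reals): finitely many nodes `0, …, n`, each with an
instruction. The start node is `0`. -/
structure Machine : Type where
  /-- the last node -/
  n : ℕ
  /-- the program -/
  prog : Fin (n + 1) → Instr n

/-- The states of the computation: a node and the contents of the cells, or the answer. -/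
abbrev State (M : Machine) : Type := (Fin (M.n + 1) × (ℤ → ℝ)) ⊕ Bool

open Classical in
/-- The effect of an instruction, with the oracle `P`. -/
noncomputable def exec (M : Machine) (P : Set ℝ) (T : ℤ → ℝ) : Instr M.n → State M
  | .const i c m => .inl (m, Function.update T i c)
  | .copy i j m => .inl (m, Function.update T i (T j))
  | .compute o i j k m => .inl (m, Function.update T i (o.apply (T j) (T k)))
  | .move s m => .inl (m, fun i => T (i + s))
  | .testEq i j yes no => .inl (if T i = T j then yes else no, T)
  | .testLt i j yes no => .inl (if T i < T j then yes else no, T)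
  | .query i yes no => .inl (if T i ∈ P then yes else no, T)
  | .halt b => .inr b

/-- One step of the computation. -/
noncomputable def step (M : Machine) (P : Set ℝ) : State M → State M
  | .inl (m, T) => exec M P T (M.prog m)
  | .inr b => .inr b

/-- The state after `t` steps of the computation on the input `x`: at the beginning, `x` is in
cell `0` and all the other cells contain `0`. -/
noncomputable def run (M : Machine) (P : Set ℝ) (x : ℝ) : ℕ → State M
  | 0 => .inl (0, fun i => if i = 0 then x else 0)
  | t + 1 => step M P (run M P x t)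

/-- The machine `M` with the oracle `P` decides `L`: it halts on every real input, and it accepts
exactly the elements of `L`. -/
def Decides (M : Machine) (P L : Set ℝ) : Prop :=
  ∀ x : ℝ, (x ∈ L → ∃ t, run M P x t = .inr true) ∧ (x ∉ L → ∃ t, run M P x t = .inr false)

/-- `L ≼ P`: some BSS machine with the oracle `P` decides `L`. -/
def Reducible (L P : Set ℝ) : Prop := ∃ M : Machine, Decides M P L

/-- `L ≡ P` -/
def Equivalent (L P : Set ℝ) : Prop := Reducible L P ∧ Reducible P L

/-- The real algebraic numbers of degree exactly `d`. -/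
def Aeq (d : ℕ) : Set ℝ := {x | IsAlgebraic ℚ x ∧ (minpoly ℚ x).natDegree = d}

/-- The real algebraic numbers of degree at most `d`. -/
def Ale (d : ℕ) : Set ℝ := {x | IsAlgebraic ℚ x ∧ (minpoly ℚ x).natDegree ≤ d}

/-! ### Computations near a transcendental number -/

section

variable {K : Subfield ℝ} {x0 : ℝ}

/-- the value of a formal quotient -/
noncomputable def val (x : ℝ) (q : K[X] × K[X]) : ℝ := aeval x q.1 / aeval x q.2

/-- a nonconstant formal quotient -/
def NC (q : K[X] × K[X]) : Prop :=
  ∀ y : ℝ, q.1.map (algebraMap K ℝ) ≠ C y * q.2.map (algebraMap K ℝ)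

/-- no query is answered with yes -/
def Good (P : Set ℝ) (Q : List (K[X] × K[X])) (x : ℝ) : Prop := ∀ q ∈ Q, val x q ∉ P

lemma eventually_ne (B : K[X]) (h : aeval x0 B ≠ 0) : ∀ᶠ x in 𝓝 x0, aeval x B ≠ 0 :=
  (Polynomial.continuous_aeval B).continuousAt.eventually_ne h

/-- arithmetic on formal quotients -/
lemma exists_op (htr : ∀ A : K[X], A ≠ 0 → aeval x0 A ≠ 0) (o : Op) (q r : K[X] × K[X])
    (hq : aeval x0 q.2 ≠ 0) (hr : aeval x0 r.2 ≠ 0) :
    ∃ s : K[X] × K[X], aeval x0 s.2 ≠ 0 ∧
      ∀ᶠ x in 𝓝 x0, o.apply (val x q) (val x r) = val x s := by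
  cases o with
  | add =>
    refine ⟨(q.1 * r.2 + r.1 * q.2, q.2 * r.2), ?_, ?_⟩
    · rw [map_mul]; exact mul_ne_zero hq hr
    · filter_upwards [eventually_ne _ hq, eventually_ne _ hr] with x h1 h2
      simp only [Op.apply, val, map_add, map_mul]
      field_simp
  | sub =>
    refine ⟨(q.1 * r.2 - r.1 * q.2, q.2 * r.2), ?_, ?_⟩
    · rw [map_mul]; exact mul_ne_zero hq hr
    · filter_upwards [eventually_ne _ hq, eventually_ne _ hr] with x h1 h2
      simp only [Op.apply, val, map_sub, map_mul]
      field_simp
  | mul =>
    refine ⟨(q.1 * r.1, q.2 * r.2), ?_, ?_⟩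
    · rw [map_mul]; exact mul_ne_zero hq hr
    · filter_upwards with x
      simp only [Op.apply, val, map_mul]
      rw [div_mul_div_comm]
  | div =>
    by_cases h : r.1 = 0
    · refine ⟨(0, 1), by simp, ?_⟩
      filter_upwards with x
      simp [Op.apply, val, h]
    · have h1 := htr _ h
      refine ⟨(q.1 * r.2, q.2 * r.1), ?_, ?_⟩
      · rw [map_mul]; exact mul_ne_zero hq h1
      · filter_upwards with x
        simp only [Op.apply, val, map_mul]
        rw [div_div_div_eq]

/-- comparison of formal quotients -/
lemma exists_cmp (htr : ∀ A : K[X], A ≠ 0 → aeval x0 A ≠ 0) (q r : K[X] × K[X])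
    (hq : aeval x0 q.2 ≠ 0) (hr : aeval x0 r.2 ≠ 0) :
    (∀ᶠ x in 𝓝 x0, val x q = val x r) ∨ (∀ᶠ x in 𝓝 x0, val x q < val x r) ∨
      (∀ᶠ x in 𝓝 x0, val x r < val x q) := by
  have hc : ∀ s : K[X] × K[X], aeval x0 s.2 ≠ 0 → ContinuousAt (fun x => val x s) x0 := by
    intro s hs
    unfold val
    exact (Polynomial.continuous_aeval s.1).continuousAt.div
      (Polynomial.continuous_aeval s.2).continuousAt hs
  by_cases h : q.1 * r.2 - r.1 * q.2 = 0
  · left
    filter_upwards [eventually_ne _ hq, eventually_ne _ hr] with x h1 h2
    have h3 := congrArg (aeval x) h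
    simp only [map_sub, map_mul, map_zero] at h3
    unfold val
    rw [div_eq_div_iff h1 h2]
    linarith
  · have h1 := htr _ h
    have h2 : val x0 q ≠ val x0 r := by
      intro h3
      unfold val at h3
      rw [div_eq_div_iff hq hr] at h3
      apply h1
      simp only [map_sub, map_mul]
      linarith
    rcases lt_or_gt_of_ne h2 with h3 | h3
    · right; left
      exact (hc q hq).eventually_lt (hc r hr) h3
    · right; right
      exact (hc r hr).eventually_lt (hc q hq) h3

variable (M : Machine) (P : Set ℝ)

/-- The computations near `x0`. -/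
lemma simulate (htr : ∀ A : K[X], A ≠ 0 → aeval x0 A ≠ 0)
    (hconst : ∀ m i c m', M.prog m = .const i c m' → c ∈ K) (t : ℕ) :
    ∃ Q : List (K[X] × K[X]), (∀ q ∈ Q, aeval x0 q.2 ≠ 0 ∧ NC q) ∧
      ((∃ (m : Fin (M.n + 1)) (σ : ℤ → K[X] × K[X]), (∀ i, aeval x0 (σ i).2 ≠ 0) ∧
        ∀ᶠ x in 𝓝 x0, Good P Q x → run M P x t = .inl (m, fun i => val x (σ i))) ∨
      ∃ b, ∀ᶠ x in 𝓝 x0, Good P Q x → run M P x t = .inr b) := by
  classical
  induction t with
  | zero =>
    refine ⟨[], by simp, Or.inl ⟨0, fun i => if i = 0 then (X, 1) else (0, 1), ?_, ?_⟩⟩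
    · intro i
      dsimp only
      split_ifs <;> simp
    · filter_upwards with x _
      simp only [run]
      congr 2
      funext i
      by_cases hi : i = 0 <;> simp [hi, val]
  | succ t ih =>
    obtain ⟨Q, hQ, ⟨m, σ, hσ, hrun⟩ | ⟨b, hrun⟩⟩ := ih
    swap
    · refine ⟨Q, hQ, Or.inr ⟨b, ?_⟩⟩
      filter_upwards [hrun] with x hx hg
      show step M P (run M P x t) = _
      rw [hx hg]
      rfl
    cases hm : M.prog m with
    | const i c m' =>
      have hc := hconst _ _ _ _ hm
      refine ⟨Q, hQ, Or.inl ⟨m', Function.update σ i (C ⟨c, hc⟩, 1), ?_, ?_⟩⟩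
      · intro j
        by_cases hj : j = i
        · subst hj; simp
        · rw [Function.update_of_ne hj]; exact hσ j
      · filter_upwards [hrun] with x hx hg
        show step M P (run M P x t) = _
        rw [hx hg]
        show exec M P _ (M.prog m) = _
        rw [hm]
        simp only [exec]
        congr 2
        funext j
        by_cases hj : j = i
        · subst hj
          simp only [Function.update_self, val, aeval_C, map_one, div_one]
          rfl
        · simp only [Function.update_of_ne hj]
    | copy i j m' =>
      refine ⟨Q, hQ, Or.inl ⟨m', Function.update σ i (σ j), ?_, ?_⟩⟩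
      · intro k
        by_cases hk : k = i
        · subst hk; rw [Function.update_self]; exact hσ j
        · rw [Function.update_of_ne hk]; exact hσ k
      · filter_upwards [hrun] with x hx hg
        show step M P (run M P x t) = _
        rw [hx hg]
        show exec M P _ (M.prog m) = _
        rw [hm]
        simp only [exec]
        congr 2
        funext k
        by_cases hk : k = i
        · subst hk
          simp only [Function.update_self]
        · simp only [Function.update_of_ne hk]
    | compute o i j k m' =>
      obtain ⟨s, hs, hs2⟩ := exists_op htr o (σ j) (σ k) (hσ j) (hσ k)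
      refine ⟨Q, hQ, Or.inl ⟨m', Function.update σ i s, ?_, ?_⟩⟩
      · intro l
        by_cases hl : l = i
        · subst hl; rw [Function.update_self]; exact hs
        · rw [Function.update_of_ne hl]; exact hσ l
      · filter_upwards [hrun, hs2] with x hx hx2 hg
        show step M P (run M P x t) = _
        rw [hx hg]
        show exec M P _ (M.prog m) = _
        rw [hm]
        simp only [exec]
        congr 2
        funext l
        by_cases hl : l = i
        · subst hl
          simp only [Function.update_self]
          exact hx2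
        · simp only [Function.update_of_ne hl]
    | move s m' =>
      refine ⟨Q, hQ, Or.inl ⟨m', fun i => σ (i + s), fun i => hσ _, ?_⟩⟩
      filter_upwards [hrun] with x hx hg
      show step M P (run M P x t) = _
      rw [hx hg]
      show exec M P _ (M.prog m) = _
      rw [hm]
      rfl
    | testEq i j yes no =>
      rcases exists_cmp htr (σ i) (σ j) (hσ i) (hσ j) with h | h | h
      · refine ⟨Q, hQ, Or.inl ⟨yes, σ, hσ, ?_⟩⟩
        filter_upwards [hrun, h] with x hx h2 hg
        show step M P (run M P x t) = _
        rw [hx hg]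
        show exec M P _ (M.prog m) = _
        rw [hm]
        simp only [exec, if_pos h2]
      · refine ⟨Q, hQ, Or.inl ⟨no, σ, hσ, ?_⟩⟩
        filter_upwards [hrun, h] with x hx h2 hg
        show step M P (run M P x t) = _
        rw [hx hg]
        show exec M P _ (M.prog m) = _
        rw [hm]
        simp only [exec, if_neg h2.ne]
      · refine ⟨Q, hQ, Or.inl ⟨no, σ, hσ, ?_⟩⟩
        filter_upwards [hrun, h] with x hx h2 hg
        show step M P (run M P x t) = _
        rw [hx hg]
        show exec M P _ (M.prog m) = _
        rw [hm]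
        simp only [exec, if_neg h2.ne']
    | testLt i j yes no =>
      rcases exists_cmp htr (σ i) (σ j) (hσ i) (hσ j) with h | h | h
      · refine ⟨Q, hQ, Or.inl ⟨no, σ, hσ, ?_⟩⟩
        filter_upwards [hrun, h] with x hx h2 hg
        show step M P (run M P x t) = _
        rw [hx hg]
        show exec M P _ (M.prog m) = _
        rw [hm]
        have h3 : ¬ val x (σ i) < val x (σ j) := by rw [h2]; exact lt_irrefl _
        simp only [exec, if_neg h3]
      · refine ⟨Q, hQ, Or.inl ⟨yes, σ, hσ, ?_⟩⟩
        filter_upwards [hrun, h] with x hx h2 hg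
        show step M P (run M P x t) = _
        rw [hx hg]
        show exec M P _ (M.prog m) = _
        rw [hm]
        simp only [exec, if_pos h2]
      · refine ⟨Q, hQ, Or.inl ⟨no, σ, hσ, ?_⟩⟩
        filter_upwards [hrun, h] with x hx h2 hg
        show step M P (run M P x t) = _
        rw [hx hg]
        show exec M P _ (M.prog m) = _
        rw [hm]
        simp only [exec, if_neg h2.asymm]
    | query i yes no =>
      by_cases hnc : NC (σ i)
      · refine ⟨σ i :: Q, ?_, Or.inl ⟨no, σ, hσ, ?_⟩⟩
        · intro q hq
          rcases List.mem_cons.1 hq with rfl | hq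
          · exact ⟨hσ i, hnc⟩
          · exact hQ q hq
        · filter_upwards [hrun] with x hx hg
          have hg2 : Good P Q x := fun q hq => hg q (List.mem_cons_of_mem _ hq)
          have hg3 : val x (σ i) ∉ P := hg _ List.mem_cons_self
          show step M P (run M P x t) = _
          rw [hx hg2]
          show exec M P _ (M.prog m) = _
          rw [hm]
          simp only [exec, if_neg hg3]
      · unfold NC at hnc
        push Not at hnc
        obtain ⟨y, hy⟩ := hnc
        refine ⟨Q, hQ, Or.inl ⟨if y ∈ P then yes else no, σ, hσ, ?_⟩⟩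
        filter_upwards [hrun, eventually_ne _ (hσ i)] with x hx h2 hg
        have h3 : val x (σ i) = y := by
          unfold val
          have h4 := congrArg (eval x) hy
          rw [eval_mul, eval_C, eval_map_algebraMap, eval_map_algebraMap] at h4
          rw [h4, mul_div_assoc, div_self h2, mul_one]
        show step M P (run M P x t) = _
        rw [hx hg]
        show exec M P _ (M.prog m) = _
        rw [hm]
        simp only [exec, h3]
    | halt b =>
      refine ⟨Q, hQ, Or.inr ⟨b, ?_⟩⟩
      filter_upwards [hrun] with x hx hg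
      show step M P (run M P x t) = _
      rw [hx hg]
      show exec M P _ (M.prog m) = _
      rw [hm]
      rfl

/-- `x0` is good. -/
lemma good_self (htr : ∀ A : K[X], A ≠ 0 → aeval x0 A ≠ 0) (hP : ∀ y ∈ P, y ∈ K)
    (Q : List (K[X] × K[X])) (hQ : ∀ q ∈ Q, aeval x0 q.2 ≠ 0 ∧ NC q) : Good P Q x0 := by
  intro q hq hmem
  obtain ⟨h1, h2⟩ := hQ q hq
  have h3 : q.1 - C ⟨_, hP _ hmem⟩ * q.2 = 0 := by
    by_contra h
    apply htr _ h
    rw [map_sub, map_mul, aeval_C]
    show aeval x0 q.1 - val x0 q * aeval x0 q.2 = 0
    unfold val
    rw [div_mul_cancel₀ _ h1, sub_self]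
  apply h2 (val x0 q)
  have h4 := congrArg (Polynomial.map (algebraMap K ℝ)) (sub_eq_zero.1 h3)
  rw [Polynomial.map_mul, map_C] at h4
  exact h4

lemma run_halted {x : ℝ} {b : Bool} {t : ℕ} (h : run M P x t = .inr b) (s : ℕ) :
    run M P x (t + s) = .inr b := by
  induction s with
  | zero => exact h
  | succ s ih =>
    show step M P (run M P x (t + s)) = _
    rw [ih]
    rfl

end

/-- There is a number which is transcendental over a given countable set. -/
lemma exists_transcendental (S : Set ℝ) (hS : S.Countable) :
    ∃ (K : Subfield ℝ) (x0 : ℝ), S ⊆ K ∧ ∀ A : K[X], A ≠ 0 → aeval x0 A ≠ 0 := by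
  let K := Subfield.closure S
  have hK : Countable K := by
    rw [← Cardinal.mk_le_aleph0_iff]
    refine (Subfield.cardinalMk_closure_le_max S).trans ?_
    rw [max_le_iff]
    exact ⟨Cardinal.mk_le_aleph0_iff.2 hS.to_subtype, le_rfl⟩
  have h1 : {x : ℝ | IsAlgebraic K x}.Countable := Algebraic.countable K ℝ
  obtain ⟨x0, hx0⟩ : ∃ x : ℝ, ¬ IsAlgebraic K x := by
    by_contra hcon
    push Not at hcon
    apply Cardinal.not_countable_real
    exact h1.mono fun x _ => hcon x
  refine ⟨K, x0, Subfield.subset_closure, fun A hA h => hx0 ⟨A, hA, h⟩⟩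

theorem main {d : ℕ} (hd : 3 ≤ d) : ¬ Reducible (Ale d) (Aeq d) := by
  rintro ⟨M, hM⟩
  -- a prime number below `d` that does not divide `d`
  obtain ⟨p, hp, hpd⟩ := Nat.exists_prime_and_dvd (n := d - 1) (by omega)
  have hple : p ≤ d := (Nat.le_of_dvd (by omega) hpd).trans (by omega)
  have hpnd : ¬ p ∣ d := by
    intro h
    have h1 : p ∣ d - (d - 1) := Nat.dvd_sub h hpd
    have h2 : d - (d - 1) = 1 := by omega
    rw [h2] at h1
    exact hp.one_lt.ne' (Nat.dvd_one.1 h1)
  -- the constants of the machine and the algebraic numbers
  let S : Set ℝ := {c | ∃ m i m', M.prog m = .const i c m'} ∪ {x | IsAlgebraic ℚ x}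
  have hS : S.Countable := by
    apply Set.Countable.union
    · have h1 : {c : ℝ | ∃ m i m', M.prog m = .const i c m'} ⊆
          Set.range (fun m : Fin (M.n + 1) => match M.prog m with
            | .const _ c _ => c
            | _ => 0) := by
        rintro c ⟨m, i, m', h⟩
        exact ⟨m, by simp only [h]⟩
      exact (Set.countable_range _).mono h1
    · exact Algebraic.countable ℚ ℝ
  obtain ⟨K, x0, hSK, htr⟩ := exists_transcendental S hS
  have hP : ∀ y ∈ Aeq d, y ∈ K := fun y hy => hSK (Or.inr hy.1)
  have hx0 : x0 ∉ Ale d := by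
    intro h
    have h1 : x0 ∈ K := hSK (Or.inr h.1)
    apply htr (X - C ⟨x0, h1⟩) (X_sub_C_ne_zero _)
    rw [map_sub, aeval_X, aeval_C]
    exact sub_self _
  obtain ⟨t, ht⟩ := (hM x0).2 hx0
  obtain ⟨Q, hQ, hrun⟩ := simulate (x0 := x0) M (Aeq d) htr
    (fun m i c m' h => hSK (Or.inl ⟨m, i, m', h⟩)) t
  have hg0 := good_self (Aeq d) htr hP Q hQ
  have hfalse : ∀ᶠ x in 𝓝 x0, Good (Aeq d) Q x → run M (Aeq d) x t = .inr false := by
    rcases hrun with ⟨m, σ, -, h⟩ | ⟨b, h⟩
    · have h1 := h.self_of_nhds hg0
      rw [ht] at h1
      cases h1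
    · have h1 := h.self_of_nhds hg0
      rw [ht] at h1
      cases h1
      exact h
  have hB : ∀ᶠ x in 𝓝 x0, ∀ q ∈ Q, aeval x q.2 ≠ 0 := by
    have : ∀ Q' : List (K[X] × K[X]), (∀ q ∈ Q', aeval x0 q.2 ≠ 0) →
        ∀ᶠ x in 𝓝 x0, ∀ q ∈ Q', aeval x q.2 ≠ 0 := by
      intro Q'
      induction Q' with
      | nil => intro _; simp
      | cons q Q' ih =>
        intro h
        filter_upwards [eventually_ne _ (h q List.mem_cons_self),
          ih fun r hr => h r (List.mem_cons_of_mem _ hr)] with x h1 h2
        intro r hr
        rcases List.mem_cons.1 hr with rfl | hr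
        · exact h1
        · exact h2 r hr
    exact this Q fun q hq => (hQ q hq).1
  obtain ⟨U, hU1, hU2, hU3⟩ := eventually_nhds_iff.1 (hfalse.and hB)
  let Q' : List (ℝ[X] × ℝ[X]) :=
    Q.map fun q => (q.1.map (algebraMap K ℝ), q.2.map (algebraMap K ℝ))
  obtain ⟨x, hxU, hxalg, hxdeg, hxQ⟩ := Pool.Agent.V8H39.BSS.exists_point (d := d) hp hpnd Q'
    (by
      intro q hq h
      obtain ⟨r, hr, rfl⟩ := List.mem_map.1 hq
      have h1 := (hQ r hr).1
      have h2 : r.2.map (algebraMap K ℝ) = 0 := h
      apply h1
      rw [← eval_map_algebraMap, h2, eval_zero])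
    (by
      intro q hq y h
      obtain ⟨r, hr, rfl⟩ := List.mem_map.1 hq
      exact (hQ r hr).2 y h)
    hU2 ⟨x0, hU3⟩
  have hgood : Good (Aeq d) Q x := by
    intro q hq hmem
    have h1 := hxQ _ (List.mem_map.2 ⟨q, hq, rfl⟩)
    simp only [eval_map_algebraMap] at h1
    exact h1 ((hU1 x hxU).2 q hq) hmem.1 hmem.2
  have h1 := (hU1 x hxU).1 hgood
  obtain ⟨t', ht'⟩ := (hM x).1 ⟨hxalg, by rw [hxdeg]; exact hple⟩
  have h2 := run_halted M (Aeq d) h1 t'
  have h3 := run_halted M (Aeq d) ht' t
  rw [add_comm, h2] at h3
  cases h3

/-- **Negative answer to Q1.** For every `d ≥ 3` the set `𝔸≤d` of the real algebraic numbers of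
degree at most `d` is not BSS reducible to the set `𝔸₌d` of those of degree exactly `d`, and so the
two sets are not equivalent. -/
theorem result : ∀ d : ℕ, 3 ≤ d → ¬ Reducible (Ale d) (Aeq d) ∧ ¬ Equivalent (Aeq d) (Ale d) :=
  fun _ hd => ⟨main hd, fun h => main hd h.2⟩

end Pool.Agent.Results.MP_8762dc_lc.ExactDegreeTooWeak
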